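import Mathlib

/-!
Pebble games on a directed graph.  `E u v` means that `u` is an immediate predecessor of `v`.
-/

namespace Pool.Agent.MP_47ff19_lc.H50

variable {V : Type} [DecidableEq V]

/-- One move of the black-white pebble game; a position is a pair (black pebbles, white pebbles).
Place a black pebble on an empty vertex whose predecessors all carry pebbles, remove a black
pebble, place a white pebble on an empty vertex, or remove a white pebble from a vertex whose
predecessors all carry pebbles. -/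
def BWMove (E : V → V → Prop) (X Y : Finset V × Finset V) : Prop :=
  ∃ v, (v ∉ X.1 ∪ X.2 ∧ (∀ u, E u v → u ∈ X.1 ∪ X.2) ∧ Y = (insert v X.1, X.2)) ∨
    (v ∈ X.1 ∧ Y = (X.1.erase v, X.2)) ∨
    (v ∉ X.1 ∪ X.2 ∧ Y = (X.1, insert v X.2)) ∨
    (v ∈ X.2 ∧ (∀ u, E u v → u ∈ X.1 ∪ X.2) ∧ Y = (X.1, X.2.erase v))

/-- A black-white pebbling that starts with no pebbles, ends with no white pebbles, puts a pebble
on `z` at some moment and never has more than `s` pebbles on the graph. -/
def BWPebbling (E : V → V → Prop) (z : V) (s : ℕ) : Prop :=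
  ∃ (T : ℕ) (X : ℕ → Finset V × Finset V), X 0 = (∅, ∅) ∧ (X T).2 = ∅ ∧
    (∀ t < T, BWMove E (X t) (X (t + 1))) ∧ (∀ t ≤ T, ((X t).1 ∪ (X t).2).card ≤ s) ∧
    ∃ t ≤ T, z ∈ (X t).1 ∪ (X t).2

/-- One move of the reversible pebble game: a pebble may be placed on, or removed from, a vertex
only when all its predecessors carry pebbles. -/
def RevMove (E : V → V → Prop) (P Q : Finset V) : Prop :=
  ∃ v, (∀ u, E u v → u ∈ P) ∧ ((v ∉ P ∧ Q = insert v P) ∨ (v ∈ P ∧ Q = P.erase v))

/-- A reversible pebbling that starts with no pebbles, ends with a single pebble, on `z`, and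
never has more than `c` pebbles on the graph. -/
def RevPebbling (E : V → V → Prop) (z : V) (c : ℕ) : Prop :=
  ∃ (T : ℕ) (X : ℕ → Finset V), X 0 = ∅ ∧ X T = {z} ∧
    (∀ t < T, RevMove E (X t) (X (t + 1))) ∧ ∀ t ≤ T, (X t).card ≤ c

end Pool.Agent.MP_47ff19_lc.H50
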